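import Pool.Agent.Helper56.NetLog

/-! Minimum multicut versus network coding rate: the gap grows with the number of pairs. -/

set_option autoImplicit false

open scoped ENNReal

namespace Pool.Agent.Results.MP_cbd396_lc.LogGap

open Pool.Agent.Helper56.Net

/-- For every natural number `C` and every `k ≥ (8C+4)^(64C+32)` there is an acyclic
multiple-unicast network with `k` pairs, with pairwise distinct sources and sinks, whose minimum
multicut is finite and larger than `C` times its network coding rate. -/
theorem result (C k : ℕ) (hk : (8 * C + 4) ^ (64 * C + 32) ≤ k) :
    ∃ N : Network k, Function.Injective N.s ∧ Function.Injective N.t ∧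
      (∀ i j, N.s i ≠ N.t j) ∧ N.minMulticut ≠ ⊤ ∧
      (C : ℝ≥0∞) * N.codingRate < N.minMulticut :=
  exists_network_log C k hk

end Pool.Agent.Results.MP_cbd396_lc.LogGap
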